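import Mathlib
import Pool.Agent.H16.Sigma2

set_option autoImplicit false

namespace Pool.Agent.Results.MP_15ce38_nt.MaxProduct

open Finset

/-- the `j`-th elementary symmetric polynomial of `x 0, ..., x (n - 1)` -/
def sigma (x : ℕ → ℕ) (n j : ℕ) : ℕ := ∑ s ∈ powersetCard j (range n), ∏ i ∈ s, x i

theorem result (v : ℕ → ℝ) (h1 : v 1 = 1) (h2 : v 2 = 2)
    (hv : ∀ n, 2 ≤ n → v (n + 1) = 1 + (∑ i ∈ range n, 1 / v (i + 1)) /
      (1 - ∑ j ∈ range n, ∑ i ∈ range j, 1 / (v (i + 1) * v (j + 1))))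
    (n : ℕ) (hn : 2 ≤ n) (x : ℕ → ℕ) (hx : ∀ i < n, 0 < x i)
    (hm : ∀ i j, i ≤ j → j < n → x i ≤ x j) (h : sigma x n (n - 2) = sigma x n n) :
    ∏ i ∈ range n, (x i : ℝ) ≤ (∏ i ∈ range (n - 1), v (i + 1)) * (v n - 1) := by
  obtain ⟨m, rfl⟩ : ∃ m, n = m + 2 := ⟨n - 2, by omega⟩
  let y : ℕ → ℕ := fun i => x (min i (m + 1))
  have hy : ∀ i ∈ range (m + 2), x i = y i := fun i hi => by
    have := mem_range.mp hi
    simp only [y]
    rw [min_eq_left (by omega)]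
  have hy0 : ∀ i, 0 < y i := fun i => hx _ (by omega)
  have hs : ∀ j, sigma x (m + 2) j = Pool.Agent.H16.Sigma2.sig y j (m + 2) := fun j =>
    sum_congr rfl fun s hs => prod_congr rfl fun i hi => hy i ((mem_powersetCard.mp hs).1 hi)
  rw [hs, hs, Nat.add_sub_cancel, Pool.Agent.H16.Sigma2.sig_self] at h
  have h3 := Pool.Agent.H16.Sigma2.sig_two y hy0 m
  rw [h, Nat.cast_prod] at h3
  have h4 : (0 : ℝ) < ∏ i ∈ range (m + 2), (y i : ℝ) := prod_pos fun i _ => by exact_mod_cast hy0 i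
  have h5 := Pool.Agent.H16.Sigma2.main y hy0 (fun i j hij => hm _ _ (by omega) (by omega)) (m + 1)
    (by omega) (mul_left_cancel₀ h4.ne' (h3.symm.trans (mul_one _).symm))
  have h6 := Pool.Agent.H16.Sigma2.v_eq v h1 h2 hv
  rw [prod_congr rfl fun i hi => congrArg Nat.cast (hy i hi), h6 (m + 1),
    prod_congr rfl fun i _ => h6 i]
  exact h5

end Pool.Agent.Results.MP_15ce38_nt.MaxProduct
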